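import Pool.Agent.Helper74_RL.Stmts

/-! # DNS -/

noncomputable section

open scoped ContDiff Topology ENNReal RealInnerProductSpace BoundedContinuousFunction
set_option maxSynthPendingDepth 3
open Set Metric

namespace Pool.Agent.RLim.H26

open Pool.Agent.RLim Pool.Agent.RF

theorem w_small (D : MetricData) {ε : ℝ} (hε : 0 < ε) : ∃ N, ∀ k ≥ N, 4 * D.w k < ε := by
  obtain ⟨N, hN⟩ := exists_pow_lt_of_lt_one hε (show (1 / 2 : ℝ) < 1 by norm_num)
  refine ⟨N, fun k hk => ?_⟩
  have h1 := D.w_le k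
  have h2 := D.s_le k
  have h3 : (1 : ℝ) / 2 ^ (k + 3) ≤ (1 / 2) ^ N := by
    rw [one_div, one_div, inv_pow]
    apply inv_anti₀ (by positivity)
    exact pow_le_pow_right₀ (by norm_num) (by omega)
  have h4 := D.w_pos k
  linarith

theorem dns (hT : TubStmt) (hA : AppStmt) : DnsStmt := by
  intro D S hS
  rw [Metric.dense_iff]
  intro y0 ε hε
  by_contra hcon
  have hsub : ∀ y, dist y y0 < ε → y ∈ S := by
    intro y hy
    by_contra h
    exact hcon ⟨y, hy, h⟩
  obtain ⟨y', hy', hP⟩ := hA D y0 (ε / 2) (by positivity)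
  obtain ⟨N, hN⟩ := w_small D (show 0 < ε / 2 by positivity)
  obtain ⟨δ, hδ, hd⟩ := hT D y'.1.1 N (ε / 2) (by positivity) (fun k _ => hP k) hN
  have h1 : ball y'.1.1 δ ⊆ (fun y : BlI D => y.1.1) '' S := by
    intro X hX
    refine ⟨psiI D X, hsub _ ?_, rfl⟩
    have h2 : dist (psiI D X) y' < ε / 2 := by
      apply hd
      · change ‖X - y'.1.1‖ < δ
        rw [← dist_eq_norm]
        exact hX
      · rw [sub_self, norm_zero]
        exact hδ
    have h3 := dist_triangle (psiI D X) y' y0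
    rw [dist_comm y' y0] at h3
    linarith
  have hL : LipschitzWith 1 (fun y : BlI D => y.1.1) := by
    apply LipschitzWith.of_dist_le_mul
    intro y y'
    rw [NNReal.coe_one, one_mul, Subtype.dist_eq, Prod.dist_eq]
    exact le_max_left _ _
  have h2 : dimH (ball y'.1.1 δ) = (4 : ℝ≥0∞) := by
    rw [Real.dimH_of_mem_nhds (ball_mem_nhds _ hδ)]
    rw [finrank_euclideanSpace]
    simp
  have h3 : dimH (ball y'.1.1 δ) ≤ 1 :=
    (dimH_mono h1).trans ((hL.dimH_image_le S).trans hS)
  rw [h2] at h3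
  exact absurd h3 (by norm_num)

end Pool.Agent.RLim.H26
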