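import Pool.Agent.Helper74_RL.Stmts

/-! # SPH -/

noncomputable section

open scoped ContDiff Topology ENNReal RealInnerProductSpace BoundedContinuousFunction
set_option maxSynthPendingDepth 3
open Set Metric

namespace Pool.Agent.RLim.H26

open Pool.Agent.RLim Pool.Agent.RF

theorem sphI_comp (D : MetricData) (l : ℕ) (v : sphere (0 : E3) 1) (k : ℕ) :
    (sphI D l v).1.2 k = if k = l then D.w l • (v : E3) else D.w k • hd (D.P l - D.P k) := rfl

theorem sph : SphStmt := by
  intro D l
  have hw := D.w_pos l
  refine ⟨?_, ?_, ?_, ?_⟩
  · apply Continuous.subtype_mk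
    apply Continuous.prodMk continuous_const
    have hL : LipschitzWith (D.w l).toNNReal (fun v : sphere (0 : E3) 1 => (sphI D l v).1.2) := by
      apply LipschitzWith.of_dist_le_mul
      intro v v'
      rw [Real.coe_toNNReal _ hw.le]
      rw [BoundedContinuousFunction.dist_le (by positivity)]
      intro k
      rw [sphI_comp, sphI_comp]
      split_ifs with h
      · rw [dist_eq_norm, ← smul_sub, norm_smul, Real.norm_of_nonneg hw.le, ← dist_eq_norm]
        exact le_rfl
      · rw [dist_self]
        positivity
    exact hL.continuous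
  · have h1 : Continuous (fun y : BlI D => y.1.2 l) :=
      (continuous_eval_const (F := ℕ →ᵇ E3) l).comp
        (continuous_snd.comp continuous_subtype_val)
    exact h1.const_smul (D.w l)⁻¹
  · intro y
    rw [norm_smul, (y.2 l).1, norm_inv, Real.norm_of_nonneg hw.le]
    exact inv_mul_cancel₀ hw.ne'
  · intro v
    refine ⟨?_, rfl⟩
    rw [sphI_comp, if_pos rfl, smul_smul, inv_mul_cancel₀ hw.ne', one_smul]

end Pool.Agent.RLim.H26
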